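import Mathlib
import Pool.Agent.Helper20.CpDef
import Pool.Agent.Helper20.CpCondense

namespace Pool.Agent.Results.MP_188e7a_gt.CpCondensation

open Pool.Agent.Helper20

/-- Negative answer to Arhangel'skii's question Q1: there are Tychonoff spaces `X`, `Y` with `X`
sigma-compact and `Y` not sigma-compact such that `C_p(X)` condenses onto `C_p(Y)` (even by a
linear condensation) and `C_p(Y)` condenses onto `C_p(X)`. The example is `X = ℕ × βℕ` and
`Y = X` minus the point `(0, p)` for a free ultrafilter `p`. -/
theorem result :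
    ∃ (X Y : Type) (_ : TopologicalSpace X) (_ : TopologicalSpace Y),
      T35Space X ∧ T35Space Y ∧ SigmaCompactSpace X ∧ ¬ SigmaCompactSpace Y ∧
      (∃ Φ : Cp X →ₗ[ℝ] Cp Y, Continuous Φ ∧ Function.Bijective Φ) ∧
      (∃ Ψ : Cp Y → Cp X, Continuous Ψ ∧ Function.Bijective Ψ) :=
  ⟨CpCondense.X, CpCondense.Y, inferInstance, inferInstance, inferInstance, inferInstance,
    inferInstance, CpCondense.not_sigmaCompact_Y,
    ⟨CpCondense.res, CpCondense.res_continuous, CpCondense.res_bijective⟩,
    ⟨CpCondense.Psi, CpCondense.Psi_continuous,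
      CpCondense.Psi_injective, CpCondense.Psi_surjective⟩⟩

end Pool.Agent.Results.MP_188e7a_gt.CpCondensation
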