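import Pool.Agent.Helper20.EX.Main
import Pool.Agent.Helper20.EX.RankNe

set_option autoImplicit false

namespace Pool.Agent.Helper20.Keep.ExactGraphsV1

open Pool.Agent.Helper20 Pool.Agent.Helper20.Spectra Pool.Agent.Helper20.OP Pool.Agent.Helper20.EX
  Pool.Agent.Helper29.EX

/-- Let `K` be the class of the finite graphs which satisfy a first-order sentence `ψ`, and let it be
closed under subgraphs. The spectra over `K` are exactly the rudimentary sets of positive integers if and
only if `K` is somewhere dense and RUD = S. In detail: `K` is somewhere dense if and only if it contains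
all finite subgraphs of `stars` (infinitely many infinite stars with infinitely many infinite rays), and
then all rudimentary sets are spectra over `K`; otherwise the spectra over `K` are spectra of sentences of
quantifier rank at most `3` with relation symbols of arity at most `2`, and some spectrum is not of this
form. If `K` contains all finite
subgraphs of `claws` (infinitely many infinite stars with three rays), then some spectrum `U` over `K` is
universal (the spectra are exactly the sets of the `n ≥ 1` with `h n ∈ U`, `h` a polynomial), and all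
spectra over `K` are rudimentary if and only if RUD = S; otherwise all of them are ultimately periodic. -/
theorem result (K : ∀ n : ℕ, Str 1 (Fin n) → Prop) (ψ : (binLang 1).Sentence) (hK : DefBy K ψ)
    (hM : Monotone K) :
    ((∀ A : Set ℕ, SpectrumOver K A ↔ (IsRudimentary A ∧ 0 ∉ A)) ↔
      (SomewhereDense K ∧ ∀ A : Set ℕ, IsSpectrum A ↔ (IsRudimentary A ∧ 0 ∉ A))) ∧
    (SomewhereDense K ↔ HasAll stars K) ∧
    (SomewhereDense K → ∀ A : Set ℕ, IsRudimentary A → 0 ∉ A → SpectrumOver K A) ∧
    (¬ SomewhereDense K → ∀ A : Set ℕ, SpectrumOver K A → RankSpectrum 3 2 A) ∧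
    (∃ A : Set ℕ, IsSpectrum A ∧ ¬ RankSpectrum 3 2 A) ∧
    (HasAll FS.claws K →
      (∃ U : Set ℕ, SpectrumOver K U ∧ ∀ A : Set ℕ, IsSpectrum A ↔
        ∃ h : Polynomial ℕ, A = {n : ℕ | 1 ≤ n ∧ h.eval n ∈ U}) ∧
      ((∀ A : Set ℕ, SpectrumOver K A → IsRudimentary A) ↔
        ∀ A : Set ℕ, IsSpectrum A ↔ (IsRudimentary A ∧ 0 ∉ A))) ∧
    (¬ HasAll FS.claws K → ∀ A : Set ℕ, SpectrumOver K A → UltPeriodic A) := by
  obtain ⟨h1, h2, h3, h4, h5⟩ := exact_mono K ψ hK hM
  exact ⟨mono_exact hK hM, h1, fun h => (h2 h).1, fun h => (h3 h).1,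
    exists_not_rankSpectrum 3 2, h5, h4⟩

end Pool.Agent.Helper20.Keep.ExactGraphsV1
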