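import Pool.Agent.Helper58.QD.MainM

set_option autoImplicit false

namespace Pool.Agent.Helper20.Keep.QuantifierGapV2

open FirstOrder Pool.Agent.Helper20.Spectra Pool.Agent.Helper14.SS Pool.Agent.Helper58.QD

/-- Let `χ` be a first-order sentence over the finitely many relation symbols `S` (of the arities
`ar`) and let `count χ n` be the number of its models with universe `{0, ..., n - 1}`. The formulas
`QFm L S ar α β` over a vocabulary `L` have first-order quantifiers and the quantifier `there is a
model of χ on the universe (of the given structure) such that ...`, which may be nested and negated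
and may be mixed with the first-order quantifiers. `QSpectrum χ` is the class of the spectra of the
sentences of this logic; `IsSpectrum` is the class of the first-order spectra, and `PolyHier` the
polynomial-time hierarchy (for sets of positive integers, in binary).

(1) If `χ` has at most polynomially many models, the number of models is given by
`∑ a j * n.choose j` with natural numbers `a j` for all large `n`; the quantifier can be eliminated
over finite structures (in formulas without free variables for models); and the spectra are exactly
the first-order spectra.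
(2) If not, there is a `c` with at least `2 ^ (n - c)` models for infinitely many `n`; there is a spectrum
which is not in the polynomial-time hierarchy; and for some infinite first-order spectrum `T`, for
every monadic second-order sentence `φ` the set of the `n` in `T` for which `φ` holds in
`({0, ..., n - 1}, +, ·)` is a spectrum of the logic.
(3) The spectra of the logic are exactly the rudimentary sets of positive integers if and only if
`χ` is as in (1) and the first-order spectra are exactly the rudimentary sets of positive integers.

The last clause says that rudimentary sets are in the polynomial-time hierarchy. -/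
theorem result :
    (∀ (S : Type) [Finite S] (ar : S → ℕ) (χ : (RelLang S ar).Sentence),
      ((∃ c, ∀ n, 2 ≤ n → count χ n ≤ n ^ c) →
        (∃ (d n₀ : ℕ) (a : ℕ → ℕ), ∀ n, n₀ ≤ n →
          count χ n = ∑ j ∈ Finset.range (d + 1), a j * n.choose j) ∧
        (∀ (L : FirstOrder.Language.{0, 0}) (α : Type) (φ : QFm L S ar α Empty),
          ∃ ψ : L.Formula α, ∀ (M : Type) [L.Structure M] [Finite M] (v : α → M),
            φ.Holds χ v Empty.elim ↔ ψ.Realize v) ∧
        ∀ A : Set ℕ, QSpectrum χ A ↔ IsSpectrum A) ∧
      ((¬ ∃ c, ∀ n, 2 ≤ n → count χ n ≤ n ^ c) →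
        (∃ c : ℕ, ∀ N : ℕ, ∃ n, N ≤ n ∧ 2 ^ n ≤ 2 ^ c * count χ n) ∧
        (∃ A : Set ℕ, QSpectrum χ A ∧ ¬ PolyHier A) ∧
        ∃ T : Set ℕ, IsSpectrum T ∧ T.Infinite ∧ ∀ φ : SFm ArL 0 0,
          QSpectrum χ (T ∩ arithS (fun n => n) φ)) ∧
      ((∀ A : Set ℕ, QSpectrum χ A ↔ IsRudimentary A ∧ 0 ∉ A) ↔
        (∃ c, ∀ n, 2 ≤ n → count χ n ≤ n ^ c) ∧
          ∀ A : Set ℕ, IsSpectrum A ↔ IsRudimentary A ∧ 0 ∉ A)) ∧
    ∀ A : Set ℕ, IsRudimentary A → PolyHier A :=
  ⟨fun S _ ar χ => mainM S ar χ, Pool.Agent.Helper14.QG.rudPH⟩

end Pool.Agent.Helper20.Keep.QuantifierGapV2
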