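import Pool.Agent.Helper29.C2.Kinds3

set_option autoImplicit false

namespace Pool.Agent.Helper20.Keep.TwoVariablesV1

open Pool.Agent.Helper20.Spectra Pool.Agent.Helper29.C2

/-- Two-variable logic with counting quantifiers over finitely many binary relations which are
declared to be linear orders, weak orders, equivalence relations, forest orders, `N`-free orders,
partial orders (of width at most `2`, of height at most `3`, all), preorders or transitive relations,
and any further unary and binary relations. If at most one relation is declared, and of one of the
first five kinds, all sets of sizes of finite models are ultimately periodic, even with a monadic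
second-order sentence on the declared and the unary relations. Otherwise one of these sets, `U`, is
universal (the first-order spectra are the sets of the `n ≥ 1` with `h n ∈ U`, `h` a polynomial), and
all these sets are rudimentary if and only if RUD = S. These sets are never exactly the rudimentary
sets of positive integers, and one first-order spectrum is not obtained from any list of declared
relations. -/
theorem result :
    (∀ (ι : Type) [Finite ι] (κ : ι → Kind),
      (((∀ i j : ι, i = j) ∧ ∀ i, (κ i).IsTame) → Tame (Background κ)) ∧
      (¬ ((∀ i j : ι, i = j) ∧ ∀ i, (κ i).IsTame) → Wild (Background κ)) ∧
      ¬ ∀ A : Set ℕ, C2Spectrum (Background κ) A ↔ (IsRudimentary A ∧ 0 ∉ A)) ∧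
    ∃ A : Set ℕ, IsSpectrum A ∧ ∀ (ι : Type) [Finite ι] (κ : ι → Kind), ¬ C2Spectrum (Background κ) A :=
  kinds_main

end Pool.Agent.Helper20.Keep.TwoVariablesV1
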