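import Pool.Agent.Helper32.TV2.Kinds
import Pool.Agent.Helper94.TV2.LL
import Pool.Agent.Helper94.TV2.LE
import Pool.Agent.Helper20.TV2.EE
import Pool.Agent.Helper20.TV2.W2
import Pool.Agent.Helper12.TV2.H3

set_option autoImplicit false

namespace Pool.Agent.Results.MP_023469_lc.TwoVariables

open Pool.Agent.Helper20.Spectra Pool.Agent.Helper29.C2 Pool.Agent.Helper32.TV2
open Pool.Agent.Helper12.SS (RudAdv)

/-- Two-variable logic with counting quantifiers over finitely many binary relations which are
declared to be linear orders, weak orders, equivalence relations, forest orders, `N`-free orders,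
partial orders (of width at most `2`, of height at most `3`, all), preorders or transitive relations,
and any further unary and binary relations. If at most one relation is declared, and of one of the
first five kinds, all sets of sizes of finite models are ultimately periodic, even with a monadic
second-order sentence on the declared and the unary relations. Otherwise, with such a monadic
second-order sentence, one of these sets is not rudimentary, and not even rudimentary with advice of
linear length; without it, one of these sets, `U`, is universal (the first-order spectra are the sets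
of the `n ≥ 1` with `h n ∈ U`, `h` a polynomial), and all these sets are rudimentary if and only if
RUD = S. These sets are never exactly the rudimentary sets of positive integers, and one first-order
spectrum is not obtained from any list of declared relations. -/
theorem result :
    (∀ (ι : Type) [Finite ι] (κ : ι → Kind),
      (((∀ i j : ι, i = j) ∧ ∀ i, (κ i).IsTame) → Tame (Background κ)) ∧
      (¬ ((∀ i j : ι, i = j) ∧ ∀ i, (κ i).IsTame) → Wild (Background κ) ∧
        ∃ A : Set ℕ, C2MSpectrum (Background κ) A ∧ ¬ RudAdv A) ∧
      ¬ ∀ A : Set ℕ, C2Spectrum (Background κ) A ↔ (IsRudimentary A ∧ 0 ∉ A)) ∧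
    (∀ A : Set ℕ, IsRudimentary A → RudAdv A) ∧
    ∃ A : Set ℕ, IsSpectrum A ∧ ∀ (ι : Type) [Finite ι] (κ : ι → Kind),
      ¬ C2Spectrum (Background κ) A := by
  refine ⟨fun ι _ κ => ⟨(kinds_main.1 ι κ).1, fun h => ⟨(kinds_main.1 ι κ).2.1 h,
    wildM_of Pool.Agent.Helper94.TV2.t_LL Pool.Agent.Helper94.TV2.t_LE Pool.Agent.Helper20.TV2.t_EE
      Pool.Agent.Helper20.TV2.t_W2 Pool.Agent.Helper12.TV2.t_H3 κ h⟩, (kinds_main.1 ι κ).2.2⟩,
    Pool.Agent.Helper38.DG.advOf, kinds_main.2⟩

end Pool.Agent.Results.MP_023469_lc.TwoVariables
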